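import Pool.Agent.H61.KV.TN

open Pool.Agent.H61.KV Pool.Agent.H59 Pool.Agent.H64.LB Pool.Agent.H61.KU Set

namespace Pool.Agent.H69.KV.CHN

theorem pf_CHN (h1 : T_HAC) (h2 : T_STP) : T_CHN := by
  intro V _ _ _ m hc p hp k
  have hcont : ∀ f : V →ₗ[ℝ] ℝ, Continuous fun x => f (m x) := fun f =>
    (LinearMap.continuous_of_finiteDimensional f).comp hc.cont
  induction k with
  | zero =>
    intro κ _ hκ
    have h := h1 V m hc p hp (κ 0) (hκ 0)
    have he : {x : PN 2 | ∀ i, 0 < κ i (m x)} = {x : PN 2 | 0 < κ 0 (m x)} := by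
      ext x
      exact ⟨fun h => h 0, fun h i => by
        have hi : i = 0 := Fin.fin_one_eq_zero i
        rw [hi]
        exact h⟩
    rw [he]
    exact h
  | succ k ih =>
    intro κ hk hκ
    let B : Set (PN 2) := {x | ∀ i : Fin k, 0 < κ i.castSucc.castSucc (m x)}
    let u₀ : PN 2 → ℝ := fun x => κ (Fin.last k).castSucc (m x)
    let u₁ : PN 2 → ℝ := fun x => κ (Fin.last (k + 1)) (m x)
    have hB : IsOpen B := by
      have : B = ⋂ i : Fin k, {x | 0 < κ i.castSucc.castSucc (m x)} := by
        ext x; simp [B]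
      rw [this]
      exact isOpen_iInter_of_finite fun i => isOpen_lt continuous_const (hcont _)
    have hset : {x : PN 2 | ∀ i, 0 < κ i (m x)} = B ∩ {y | 0 < u₀ y} ∩ {y | 0 < u₁ y} := by
      ext x
      constructor
      · intro h
        exact ⟨⟨fun i => h _, h _⟩, h _⟩
      · rintro ⟨⟨ha, hb⟩, hd⟩ i
        refine Fin.lastCases ?_ (fun j => ?_) i
        · exact hd
        · refine Fin.lastCases ?_ (fun l => ?_) j
          · exact hb
          · exact ha l
    rw [hset]
    refine h2 (PN 2) B u₀ u₁ (4 - (k + 1)) hB (hcont _) (hcont _) ?_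
    intro θ h0 h1'
    have h4 : 4 - (k + 1) + 1 = 4 - k := by omega
    rw [h4]
    let κ' : Fin (k + 1) → V →ₗ[ℝ] ℝ := Fin.snoc (α := fun _ => V →ₗ[ℝ] ℝ)
      (fun i => κ i.castSucc.castSucc) ((1 - θ) • κ (Fin.last k).castSucc + θ • κ (Fin.last (k + 1)))
    have hk1 : ∀ i : Fin k, κ' i.castSucc = κ i.castSucc.castSucc := fun i => by
      simp [κ']
    have hk2 : κ' (Fin.last k) =
        (1 - θ) • κ (Fin.last k).castSucc + θ • κ (Fin.last (k + 1)) := by
      simp [κ']
    have h := ih κ' (by omega) (by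
      intro i q hq
      refine Fin.lastCases ?_ (fun j => ?_) i
      · rw [hk2]
        simp [hκ _ q hq]
      · rw [hk1]
        exact hκ _ q hq)
    have he : {x : PN 2 | ∀ i, 0 < κ' i (m x)} =
        B ∩ {y | 0 < (1 - θ) * u₀ y + θ * u₁ y} := by
      ext x
      constructor
      · intro h
        refine ⟨fun i => ?_, ?_⟩
        · have := h i.castSucc
          rw [hk1] at this
          exact this
        · have := h (Fin.last k)
          rw [hk2] at this
          simpa [u₀, u₁] using this
      · rintro ⟨ha, hb⟩ i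
        refine Fin.lastCases ?_ (fun j => ?_) i
        · rw [hk2]
          simpa [u₀, u₁] using hb
        · rw [hk1]
          exact ha j
    rw [he] at h
    exact h

end Pool.Agent.H69.KV.CHN
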