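import Pool.Agent.H61.KV.TE

open Pool.Agent.H61.KV Pool.Agent.H59 Pool.Agent.H64.LB Pool.Agent.H61.KU

namespace Pool.Agent.H69.KV.EFR

theorem pf_EFR (h1 : T_FCB) (h2 : T_CNC) : T_EFR := by
  intro V _ _ _ m hc hs q hq hsub r hr
  obtain ⟨hC, -, -, hm0, -, -, -, -⟩ := h2 V m hc
  obtain ⟨hqF, hF, -⟩ := h1 V (Cn m) q hC hq
  by_cases hr0 : r = 0
  · exact ⟨0, by simp [hr0]⟩
  have hq0 : q ≠ 0 := by
    rintro rfl
    obtain ⟨hrC, c, hc0, hcr⟩ := hr
    rw [smul_zero, zero_sub] at hcr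
    obtain ⟨e, he⟩ := hC.pos
    have h1 := he r hrC hr0
    have h2 := he (-r) hcr (neg_ne_zero.mpr hr0)
    rw [map_neg] at h2
    linarith
  obtain ⟨a, x, ha, hqx⟩ := hsub hqF
  obtain ⟨b, y, hb, hry⟩ := hsub hr
  have ha' : 0 < a := lt_of_le_of_ne ha (by rintro rfl; exact hq0 (by simp [hqx]))
  have hb' : 0 < b := lt_of_le_of_ne hb (by rintro rfl; exact hr0 (by simp [hry]))
  by_cases hxy : x = y
  · refine ⟨b / a, ?_⟩
    rw [hqx, hry, ← hxy, smul_smul, div_mul_cancel₀ _ ha'.ne']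
  · obtain ⟨a', b', ha1, hb1, hn⟩ := hs x y hxy
    exfalso
    apply hn
    have : a' • m x + b' • m y = (a' / a) • q + (b' / b) • r := by
      rw [hqx, hry, smul_smul, smul_smul, div_mul_cancel₀ _ ha'.ne', div_mul_cancel₀ _ hb'.ne']
    rw [this]
    exact hsub (hF.add _ (hF.smul _ (by positivity) _ hqF) _ (hF.smul _ (by positivity) _ hr))

end Pool.Agent.H69.KV.EFR
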