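import Pool.Agent.H61.KV.TS

open Pool.Agent.H61.KV Pool.Agent.H59 Pool.Agent.H64.LB Pool.Agent.H61.KU Set

namespace Pool.Agent.H69.KV.POS

/-- the slice of the cone over the origin -/
def T0 (C : Set (E4 × E5)) : Set E4 := {a | (a, (0 : E5)) ∈ C}

theorem isCC_T0 (C : Set (E4 × E5)) (hC : IsCC C) : IsCC (T0 C) where
  zero := hC.zero
  add p hp q hq := by
    have := hC.add _ hp _ hq
    simpa [T0] using this
  smul c hc p hp := by
    have := hC.smul c hc _ hp
    simpa [T0] using this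
  closed := by
    have hcont : Continuous fun a : E4 => (a, (0 : E5)) := by fun_prop
    exact hC.closed.preimage hcont
  pos := by
    obtain ⟨e, he⟩ := hC.pos
    refine ⟨e.comp (LinearMap.inl ℝ E4 E5), ?_⟩
    intro p hp hp0
    have := he (p, 0) hp (by
      intro h
      exact hp0 (congrArg Prod.fst h))
    simpa using this

theorem part1 (C : Set (E4 × E5)) (hC : IsCC C) (Z : Set E4) (hZ : IsCompact Z)
    (hp : ∀ z ∈ Z, Pz C z) : ∃ δ > 0, ∀ z ∈ Z, ∀ z', ‖z' - z‖ ≤ δ → Pz C z' := by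
  have hT := isCC_T0 C hC
  have hS : IsCompact (T0 C ∩ Metric.sphere (0 : E4) 1) :=
    (isCompact_sphere (0 : E4) 1).inter_left hT.closed
  have hK : IsCompact (Z ×ˢ (T0 C ∩ Metric.sphere (0 : E4) 1)) := hZ.prod hS
  have hb : ∀ a : E4, (a, (0 : E5)) ∈ C → a ≠ 0 →
      ‖a‖⁻¹ • a ∈ T0 C ∩ Metric.sphere (0 : E4) 1 := by
    intro a ha ha0
    refine ⟨hT.smul _ (by positivity) _ ha, ?_⟩
    rw [mem_sphere_zero_iff_norm, norm_smul, norm_inv, norm_norm,
      inv_mul_cancel₀ (norm_ne_zero_iff.mpr ha0)]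
  by_cases hne : (Z ×ˢ (T0 C ∩ Metric.sphere (0 : E4) 1)).Nonempty
  · have hcont : Continuous fun w : E4 × E4 => (inner ℝ w.1 w.2 : ℝ) := by fun_prop
    obtain ⟨⟨z0, a0⟩, hza, hmin⟩ := hK.exists_isMinOn hne hcont.continuousOn
    have ha0 : a0 ≠ 0 := by
      rintro rfl
      have := hza.2.2
      rw [mem_sphere_zero_iff_norm, norm_zero] at this
      exact zero_ne_one this
    have hμ : 0 < (inner ℝ z0 a0 : ℝ) := hp z0 hza.1 a0 hza.2.1 ha0
    refine ⟨inner ℝ z0 a0 / 2, by linarith, ?_⟩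
    intro z hz z' hz' a ha ha1
    have hbb := hb a ha ha1
    have hn := hbb.2
    rw [mem_sphere_zero_iff_norm] at hn
    have h1 : (inner ℝ z0 a0 : ℝ) ≤ inner ℝ z (‖a‖⁻¹ • a) :=
      isMinOn_iff.mp hmin (z, ‖a‖⁻¹ • a) ⟨hz, hbb⟩
    have h2 : |(inner ℝ (z' - z) (‖a‖⁻¹ • a) : ℝ)| ≤ ‖z' - z‖ * ‖‖a‖⁻¹ • a‖ :=
      abs_real_inner_le_norm _ _
    rw [hn, mul_one] at h2
    have h3 : (inner ℝ (z' - z) (‖a‖⁻¹ • a) : ℝ) =
        inner ℝ z' (‖a‖⁻¹ • a) - inner ℝ z (‖a‖⁻¹ • a) := inner_sub_left _ _ _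
    have h4 : 0 < (inner ℝ z' (‖a‖⁻¹ • a) : ℝ) := by
      have := (abs_le.mp h2).1
      linarith
    rw [inner_smul_right] at h4
    have h5 : 0 < ‖a‖⁻¹ := by positivity
    exact (mul_pos_iff_of_pos_left h5).mp h4
  · refine ⟨1, one_pos, ?_⟩
    intro z hz z' _ a ha ha1
    exact absurd ⟨(z, ‖a‖⁻¹ • a), ⟨hz, hb a ha ha1⟩⟩ hne

theorem repr (f : E4 →ₗ[ℝ] ℝ) : ∃ z : E4, ∀ a, (inner ℝ z a : ℝ) = f a := by
  refine ⟨(InnerProductSpace.toDual ℝ E4).symm (LinearMap.toContinuousLinearMap f), ?_⟩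
  intro a
  rw [InnerProductSpace.toDual_symm_apply]
  rfl

theorem pf_POS (h : T_BIP) : T_POS := by
  intro C hC
  refine ⟨part1 C hC, ?_, ?_⟩
  · obtain ⟨e, he⟩ := (isCC_T0 C hC).pos
    obtain ⟨z0, hz0⟩ := repr e
    have hPz : Pz C z0 := fun a ha ha0 => by
      rw [hz0]
      exact he a ha ha0
    obtain ⟨δ, hδ, hδ'⟩ := part1 C hC {z0} isCompact_singleton (by
      intro z hz
      rw [mem_singleton_iff] at hz
      rw [hz]
      exact hPz)
    refine ⟨fun i => if h : i.val < 4 then z0 + δ • EuclideanSpace.single ⟨i.val, h⟩ (1 : ℝ)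
      else z0, ?_, ?_⟩
    · intro i
      by_cases hi : i.val < 4
      · simp only [hi, dite_true]
        refine hδ' z0 rfl _ ?_
        rw [add_sub_cancel_left, norm_smul, PiLp.norm_single, norm_one, mul_one,
          Real.norm_of_nonneg hδ.le]
      · simp only [hi, dite_false]
        exact hPz
    · intro a ha
      have h4 : (inner ℝ z0 a : ℝ) = 0 := by
        have := ha 4
        simpa using this
      ext j
      have hj := ha j.castSucc
      have hlt : (j.castSucc : Fin 5).val < 4 := by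
        rw [Fin.val_castSucc]
        exact j.isLt
      simp only [hlt, dite_true] at hj
      rw [inner_add_left, h4, zero_add, inner_smul_left] at hj
      have h5 : (inner ℝ (EuclideanSpace.single (⟨(j.castSucc : Fin 5).val, hlt⟩ : Fin 4) (1 : ℝ)) a
          : ℝ) = a j := by
        rw [EuclideanSpace.inner_single_left]
        simp
      rw [h5] at hj
      have : δ * a j = 0 := by simpa using hj
      simpa using (mul_eq_zero.mp this).resolve_left hδ.ne'
  · intro a ha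
    refine h E4 (T0 C) a (isCC_T0 C hC) ?_
    intro ζ hζ
    obtain ⟨z, hz⟩ := repr ζ
    rw [← hz]
    refine ha z ?_
    intro t ht ht0
    rw [hz]
    exact hζ t ht ht0

end Pool.Agent.H69.KV.POS
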